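import Pool.Agent.MP_c69980_ag.H43.Spec10

/-!
The chain rule along a holomorphic family of places.
-/

set_option autoImplicit false

namespace Pool.Agent.MP_c69980_ag.H43

open Filter Topology Metric Pool.Agent.MP_f3836a_nt.PK

variable {L : Type} [Field L] [Algebra ℂ L]

open Polynomial in
theorem chain_alg {G : Type} [CommRing G] (Φ : L →+* G) (e : L → G) (T : L)
    (add : ∀ x y, e (x + y) = e x + e y) (mul : ∀ x y, e (x * y) = Φ x * e y + Φ y * e x)
    (con : ∀ c : ℂ, e (algebraMap ℂ L c) = 0) (hT : e T = 0)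
    (fd : FiniteDimensional (IntermediateField.adjoin ℂ {T}) L) (x : L) : e x = 0 := by
  have canc : ∀ y : L, y ≠ 0 → ∀ g, Φ y * g = 0 → g = 0 := fun y hy g a => by
    rw [← one_mul g, ← map_one Φ, ← inv_mul_cancel₀ hy, map_mul, mul_assoc, a, mul_zero]
  have e0 : e 0 = 0 := by simpa using con 0
  have hK : ∀ a ∈ IntermediateField.adjoin ℂ {T}, e a = 0 := fun a ha => by
    induction ha using IntermediateField.adjoin_induction with
    | mem y k => exact k ▸ hT
    | algebraMap c => exact con c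
    | add y z _ _ a b => rw [add, a, b, add_zero]
    | mul y z _ _ a b => rw [mul, a, b, mul_zero, mul_zero, add_zero]
    | inv y _ a =>
      by_cases k : y = 0
      · rw [k, inv_zero, e0]
      · have := mul y y⁻¹
        rw [mul_inv_cancel₀ k, a, mul_zero, add_zero, show e 1 = 0 by simpa using con 1] at this
        exact canc y k _ this.symm
  have hp : ∀ p : (IntermediateField.adjoin ℂ {T})[X],
      e (aeval x p) = Φ (aeval x p.derivative) * e x := fun p => by
    induction p using Polynomial.induction_on with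
    | C a =>
      rw [aeval_C, derivative_C, map_zero, map_zero, zero_mul]
      exact hK _ a.2
    | add p q a b => rw [map_add, add, a, b, map_add, map_add, map_add, add_mul]
    | monomial n a b =>
      rw [pow_succ, ← mul_assoc]
      generalize C a * X ^ n = q at b ⊢
      rw [map_mul, aeval_X, mul, b, derivative_mul, derivative_X, mul_one,
        map_add, map_mul, aeval_X, map_add, map_mul]
      ring
  have : CharZero (IntermediateField.adjoin ℂ {T}) :=
    charZero_of_injective_algebraMap (algebraMap ℂ _).injective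
  have s := Algebra.IsSeparable.isSeparable (IntermediateField.adjoin ℂ {T}) x
  have k := hp (minpoly _ x)
  rw [minpoly.aeval, e0] at k
  exact canc _ (Separable.aeval_derivative_ne_zero s (minpoly.aeval _ x)) _ k.symm

theorem chain_avoid (h : FFd L) {α : ℂ → Pl L} {ε : ℝ} (hε : 0 < ε) (hα : Arc α (ball 0 ε))
    {Z : Set (Pl L)} (hZ : Z.Finite) : ∀ᶠ s in 𝓝 (0 : ℂ), α s ∈ Z → α s = α 0 := by
  have k : ∀ P ∈ Z, ∀ᶠ s in 𝓝 (0 : ℂ), α s = P → α s = α 0 := fun P _ => by
    by_cases a : (α 0).V ≤ P.V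
    · have := h.a.dvr (α 0)
      have b : α 0 = P := Place.ext (ValuationSubring.eq_of_le_of_ne_top _ a P.ne)
      exact Eventually.of_forall fun s c => c.trans b.symm
    · obtain ⟨x, b, c⟩ := SetLike.not_le_iff_exists.1 a
      filter_upwards [(hα 0 (mem_ball_self hε) x b).1] with s d f
      exact absurd (f ▸ d) c
  filter_upwards [(eventually_all_finite hZ).2 k] with s a b using a _ b rfl

theorem chain_val (h : FFd L) (P : Pl L) {x y : L} (hx : x ∈ P.V) (hy : y ∈ P.V) :
    P.val (x + y) = P.val x + P.val y ∧ P.val (x * y) = P.val x * P.val y := by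
  obtain ⟨χ, a, -⟩ := h.a.hom P
  exact ⟨(a (⟨x, hx⟩ + ⟨y, hy⟩)).symm.trans (by rw [map_add, a, a]),
    (a (⟨x, hx⟩ * ⟨y, hy⟩)).symm.trans (by rw [map_mul, a, a])⟩

theorem chain_con (h : FFd L) (P : Pl L) (c : ℂ) : P.val (algebraMap ℂ L c) = c :=
  (h.a.hom P).choose_spec.2 c

theorem sChain : SChain := by
  intro L _ _ h D T α ε hT hε hα
  by_cases hc : ∃ᶠ s in 𝓝[≠] (0 : ℂ), α s = α 0
  · left
    obtain ⟨π, p0, p1⟩ := h.a.uni (α 0)
    have pV : π ∈ (α 0).V := (h.a.mem _ π p0).2 (by omega)
    obtain ⟨a, b⟩ := hα 0 (mem_ball_self hε) π pV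
    have v0 : (α 0).val π = 0 := (h.a.val _ π pV 0).1 (Or.inr (by simp [p1]))
    filter_upwards [a, b.frequently_zero_iff_eventually_zero.1 (hc.mono fun s k => by rw [k, v0]),
      chain_avoid h hε hα (h.b.fin π)] with s c d f
    have := (h.a.val _ π c 0).2 d
    rw [map_zero, sub_zero] at this
    exact f (this.resolve_left p0).ne'
  right
  have mem : ∀ x, ∀ᶠ s in 𝓝[≠] (0 : ℂ), x ∈ (α s).V := fun x => by
    filter_upwards [not_frequently.1 hc,
      (chain_avoid h hε hα (h.b.fin x)).filter_mono nhdsWithin_le_nhds] with s a b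
    by_cases k : x = 0
    · exact k ▸ zero_mem _
    · exact (h.a.mem _ x k).2 (not_not.1 fun c => a (b c)).ge
  let v : L → ℂ → ℂ := fun x s => (α s).val x
  have dif : ∀ x, ∀ᶠ s in 𝓝[≠] (0 : ℂ), DifferentiableAt ℂ (v x) s := fun x => by
    filter_upwards [mem x, mem_nhdsWithin_of_mem_nhds (ball_mem_nhds (0 : ℂ) hε)] with s a b
    exact (hα s b x a).2.differentiableAt
  have va : ∀ x y, v (x + y) =ᶠ[𝓝[≠] 0] v x + v y := fun x y => by
    filter_upwards [mem x, mem y] with s a b using (chain_val h _ a b).1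
  have vm : ∀ x y, v (x * y) =ᶠ[𝓝[≠] 0] v x * v y := fun x y => by
    filter_upwards [mem x, mem y] with s a b using (chain_val h _ a b).2
  have vc : ∀ c : ℂ, v (algebraMap ℂ L c) = fun _ => c := fun c => funext fun s => chain_con h _ c
  have v0 : v 0 = 0 := map_zero (algebraMap ℂ L) ▸ vc 0
  have v1 : v 1 = 1 := map_one (algebraMap ℂ L) ▸ vc 1
  let Φ : L →+* Germ (𝓝[≠] (0 : ℂ)) ℂ :=
    { toFun := fun x => ↑(v x)
      map_one' := by rw [v1]; rfl
      map_zero' := by rw [v0]; rfl
      map_mul' := fun x y => Germ.coe_eq.2 (vm x y)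
      map_add' := fun x y => Germ.coe_eq.2 (va x y) }
  let e : L → ℂ → ℂ := fun x => deriv (v x) - deriv (v T) * v (D x)
  have ht : Transcendental ℂ T := (PlB.const_or T).resolve_left fun ⟨a, k⟩ => by
    rw [k, D.map_algebraMap] at hT
    exact zero_ne_one hT
  intro x
  have key := chain_alg Φ (fun x => (e x : Germ (𝓝[≠] (0 : ℂ)) ℂ)) T
    (fun x y => (Germ.coe_eq (g := e x + e y)).2 ?_)
    (fun x y => (Germ.coe_eq (g := v x * e y + v y * e x)).2 ?_)
    (fun c => (Germ.coe_eq (g := 0)).2 (Eventually.of_forall fun s => ?_))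
    ((Germ.coe_eq (g := 0)).2 (Eventually.of_forall fun s => ?_)) (h.b.fd T ht) x
  · filter_upwards [mem x, (Germ.coe_eq (g := 0)).1 key] with s a b
    exact ⟨a, sub_eq_zero.1 b⟩
  · filter_upwards [(va x y).nhdsNE_deriv, va (D x) (D y), dif x, dif y] with s a b c d
    simp only [e, Pi.add_apply, Pi.sub_apply, Pi.mul_apply, map_add, a, b, deriv_add c d]
    ring
  · filter_upwards [(vm x y).nhdsNE_deriv, va (x * D y) (y * D x), vm x (D y), vm y (D x), dif x,
      dif y] with s a b b1 b2 c d
    simp only [e, Pi.add_apply, Pi.sub_apply, Pi.mul_apply, Derivation.leibniz, smul_eq_mul, a, b,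
      b1, b2, deriv_mul c d]
    ring
  · simp only [e, vc, D.map_algebraMap, v0, Pi.sub_apply, Pi.mul_apply, Pi.zero_apply, deriv_const,
      mul_zero, sub_zero]
  · simp only [e, hT, v1, mul_one, sub_self]

end Pool.Agent.MP_c69980_ag.H43
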